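import Pool.Agent.H90.Rep.Fin

/-!
# The abstract theorem
-/

set_option autoImplicit false
set_option linter.unusedSectionVars false

open Finset

namespace Pool.Agent.H90.Rep

open Pool.Agent.R474

section
variable {a : ℕ → ℕ} (ha : ∀ k, a k ≤ 1) {c : ℕ → ℤ} {β L : ℤ}
  (hc : ∀ m, c (m + 1) = 2 * c m - rep a (m + 1) - β * a (m + 1))
  (hβ : |β| ≤ L) (hlow : ∀ m, -L ≤ c m) (hup : ∀ m : ℕ, c m ≤ m + L + 4)
  (hK : ∃ n0 : ℕ, ∀ n, n0 ≤ n → (n : ℝ) ≤ (K a n : ℝ) ^ 2)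

lemma exp_small : Real.exp (-8) ^ 2 ≤ 1 / 10 ^ 6 := by
  have h1 := Real.exp_one_gt_d9
  have h2 : (2.7 : ℝ) ^ 16 ≤ Real.exp 1 ^ 16 := pow_le_pow_left₀ (by norm_num) (by linarith) 16
  have h3 : Real.exp (-8) ^ 2 = (Real.exp 1 ^ 16)⁻¹ := by
    rw [← Real.exp_nat_mul, ← Real.exp_nat_mul, ← Real.exp_neg]
    norm_num
  rw [h3, one_div]
  apply inv_anti₀ (by norm_num)
  refine le_trans ?_ h2
  norm_num

include ha hc hβ hlow hup hK in
theorem abstract_main : ∃ η : ℝ, 0 < η ∧ ∃ N0 : ℕ, ∀ N : ℕ, N0 ≤ N → η * N ≤ E2 a N := by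
  obtain ⟨n0, hn0⟩ := hK
  have hL : 0 ≤ L := (abs_nonneg β).trans hβ
  have hLR : (0 : ℝ) ≤ L := by exact_mod_cast hL
  set C2 : ℝ := 15 * (40 * (56 + 10 * L) ^ 2 + 40 * L ^ 2 + 100) + 4 + (3000 + 1212 * L ^ 2) * 3
    with hC2
  have hC20 : 0 ≤ C2 := by positivity
  set A : ℝ := 10 ^ 15 + 2 * 10 ^ 10 * C2 + 147456 * 10 ^ 10 with hA
  have hA0 : 0 ≤ A := by positivity
  obtain ⟨n1, hn1⟩ := exists_nat_gt ((10 ^ 4 * A) ^ 2)
  refine ⟨1 / 10 ^ 18, by positivity, n1 + 256 * (n0 + 1) + 10 ^ 7, fun N hN => ?_⟩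
  by_contra hcon
  push Not at hcon
  have hN1 : (10 : ℝ) ^ 7 ≤ N := by exact_mod_cast (by omega : 10 ^ 7 ≤ N)
  have hNpos : (0 : ℝ) < N := by linarith
  have hE : E2 a N ≤ N := by
    have h1 : (E2 a N : ℝ) ≤ N := by
      refine hcon.le.trans ?_
      linarith
    exact_mod_cast h1
  set n := N / 4 with hn
  obtain ⟨M, hM1, hM2, hM3⟩ := exists_small ha hc hβ hlow hup n N (by omega) (by omega) (by omega) hE
  have hMN : 2 * M + 1 ≤ N + 1 := by omega
  have hMR : (M : ℝ) ≤ N := by exact_mod_cast (by omega : M ≤ N)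
  -- the energy
  have hR2 : ∑ m ∈ range (2 * M + 1), (rep a m : ℝ) ^ 2 ≤ 18 * N := by
    have h1 := sum_rep_sq a N
    have h2 : ∑ m ∈ range (2 * M + 1), rep a m ^ 2 ≤ ∑ m ∈ range (N + 1), rep a m ^ 2 :=
      sum_le_sum_of_subset_of_nonneg (range_mono hMN) fun _ _ _ => Nat.zero_le _
    have h3 : ∑ m ∈ range (2 * M + 1), rep a m ^ 2 ≤ 18 * N := by omega
    exact_mod_cast h3
  -- the number of ones up to `M`
  have hKM : (K a M : ℝ) ≤ 3 * √N := by
    have h1 := K_sq a M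
    have h2 := sum_rep_one a N
    have h3 : ∑ m ∈ range (2 * M + 1), rep a m ≤ ∑ m ∈ range (N + 1), rep a m :=
      sum_le_sum_of_subset_of_nonneg (range_mono hMN) fun _ _ _ => Nat.zero_le _
    have h4 : K a M ^ 2 ≤ 9 * N := by omega
    have h5 : (K a M : ℝ) ^ 2 ≤ 9 * N := by exact_mod_cast h4
    have h6 : (9 : ℝ) * N = (3 * √N) ^ 2 := by
      rw [mul_pow, Real.sq_sqrt hNpos.le]; ring
    rw [h6] at h5
    exact (pow_le_pow_iff_left₀ (Nat.cast_nonneg _) (by positivity) (by norm_num)).1 h5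
  have hsq1 : 1 ≤ √(N : ℝ) := by
    rw [Real.one_le_sqrt]
    linarith
  have hsq : √(N : ℝ) * √N = N := Real.mul_self_sqrt hNpos.le
  -- the variation
  have hβ2 : (β : ℝ) ^ 2 ≤ (L : ℝ) ^ 2 := by
    have h1 : β ^ 2 ≤ L ^ 2 := by
      rw [← sq_abs β]
      exact pow_le_pow_left₀ (abs_nonneg _) hβ 2
    exact_mod_cast h1
  have hV2 : ∑ m ∈ range M, ((rep a (m + 1) : ℝ) - rep a m) ^ 2 ≤ 1200 * (1 / 10 ^ 18 * N) + C2 * √N := by
    have h1 := r_var ha hc hβ hlow M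
    have h2 : ∑ m ∈ range M, ((rep a (m + 1) : ℝ) - rep a m) ^ 2 ≤
        15 * (40 * (exc c M : ℝ) ^ 2 + 80 * E2 a M + (200 + 80 * (β : ℝ) ^ 2) * K a M + 40 * (L : ℝ) ^ 2 + 100) +
      12 * (β : ℝ) ^ 2 * K a M + 4 := by exact_mod_cast h1
    have h3 : (exc c M : ℝ) ^ 2 ≤ (56 + 10 * (L : ℝ)) ^ 2 := by
      have h4 : exc c M ≤ 56 + 10 * L := by
        unfold exc
        exact max_le (by linarith) (by linarith)
      have h5 : 0 ≤ exc c M := le_max_right _ _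
      have h6 := pow_le_pow_left₀ h5 h4 2
      exact_mod_cast h6
    have h4 : (E2 a M : ℝ) ≤ 1 / 10 ^ 18 * N := by
      have : (E2 a M : ℝ) ≤ E2 a N := by exact_mod_cast E2_mono a (by omega)
      linarith
    have hK0 : (0 : ℝ) ≤ K a M := Nat.cast_nonneg _
    have h5 : (3000 + 1212 * (β : ℝ) ^ 2) * K a M ≤ (3000 + 1212 * (L : ℝ) ^ 2) * (3 * √N) :=
      mul_le_mul (by linarith) hKM hK0 (by positivity)
    have h6 : 15 * (40 * (56 + 10 * (L : ℝ)) ^ 2 + 40 * (L : ℝ) ^ 2 + 100) + 4 ≤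
        (15 * (40 * (56 + 10 * (L : ℝ)) ^ 2 + 40 * (L : ℝ) ^ 2 + 100) + 4) * √N := by
      have : 0 ≤ 15 * (40 * (56 + 10 * (L : ℝ)) ^ 2 + 40 * (L : ℝ) ^ 2 + 100) + 4 := by positivity
      nlinarith
    have h7 : C2 * √N = (15 * (40 * (56 + 10 * (L : ℝ)) ^ 2 + 40 * (L : ℝ) ^ 2 + 100) + 4) * √N +
        (3000 + 1212 * (L : ℝ) ^ 2) * (3 * √N) := by rw [hC2]; ring
    rw [h7]
    linarith
  -- the weights
  set ρ : ℝ := 1 - 64 / N with hρ
  have hρ1 : ρ ≤ 1 := by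
    have : (0 : ℝ) ≤ 64 / N := by positivity
    linarith
  have hρ0 : 0 ≤ ρ := by
    have : (64 : ℝ) / N ≤ 1 := by
      rw [div_le_one hNpos]
      linarith
    linarith
  set q := N / 256 with hq
  have hq1 : n0 ≤ q := by omega
  have hqR : (N : ℝ) / 256 - 1 ≤ q := by
    have h1 : N < 256 * q + 256 := by omega
    have h2 : (N : ℝ) < 256 * q + 256 := by exact_mod_cast h1
    linarith
  have hqR2 : (q : ℝ) ≤ N / 256 := by
    have h1 : 256 * q ≤ N := by omega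
    have h2 : (256 : ℝ) * q ≤ N := by exact_mod_cast h1
    linarith
  have hau : √(N / 1200) ≤ au (wt a ρ M) M 0 := by
    have h1 : (K a q : ℝ) / 2 ≤ au (wt a ρ M) M 0 := by
      unfold au K
      push_cast
      rw [sum_div]
      refine le_trans ?_ (sum_le_sum_of_subset_of_nonneg (range_mono (by omega : q + 1 ≤ M + 1))
        fun i _ _ => mul_nonneg (wt_nonneg a hρ0 M _) (wt_nonneg a hρ0 M _))
      refine sum_le_sum fun i hi => ?_
      rw [mem_range] at hi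
      rw [add_zero]
      have e1 : wt a ρ M i = (a i : ℝ) * ρ ^ i := by
        unfold wt
        rw [if_pos (by omega)]
      rw [e1]
      have h2 : (a i : ℝ) = 0 ∨ (a i : ℝ) = 1 := by
        have h3 := ha i
        have : a i = 0 ∨ a i = 1 := by omega
        rcases this with h | h <;> rw [h] <;> norm_num
      have h3 : 1 / 2 ≤ ρ ^ i * ρ ^ i := by
        rw [← pow_add]
        have h4 : 1 + ((i + i : ℕ) : ℝ) * (ρ - 1) ≤ (1 + (ρ - 1)) ^ (i + i) :=
          one_add_mul_le_pow (by linarith) (i + i)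
        rw [add_sub_cancel] at h4
        refine le_trans ?_ h4
        have h5 : ((i + i : ℕ) : ℝ) ≤ 2 * (N / 256) := by
          have : (i : ℝ) ≤ q := by exact_mod_cast (by omega : i ≤ q)
          push_cast
          linarith
        have h6 : ((i + i : ℕ) : ℝ) * (64 / N) ≤ 2 * (N / 256) * (64 / N) :=
          mul_le_mul_of_nonneg_right h5 (by positivity)
        have h7 : 2 * ((N : ℝ) / 256) * (64 / N) = 1 / 2 := by
          field_simp
          norm_num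
        have h8 : ρ - 1 = -(64 / N) := by rw [hρ]; ring
        rw [h8]
        linarith
      rcases h2 with h2 | h2 <;> rw [h2]
      · norm_num
      · linarith
    have h2 := hn0 q hq1
    have h3 : √(N / 1200) ≤ (K a q : ℝ) / 2 := by
      apply Real.sqrt_le_iff.2
      refine ⟨by positivity, ?_⟩
      have : ((K a q : ℝ) / 2) ^ 2 = (K a q : ℝ) ^ 2 / 4 := by ring
      rw [this]
      linarith
    linarith
  have hA2 : √((N : ℝ) / 1200) ^ 2 = N / 1200 := Real.sq_sqrt (by positivity)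
  have hτ : ∀ m, M + 1 - 100000 ≤ m → ρ ^ m ≤ Real.exp (-8) := by
    intro m hm
    have h1 : ρ ≤ Real.exp (-(64 / N)) := by
      have := Real.add_one_le_exp (-(64 / (N : ℝ)))
      linarith
    have h2 : ρ ^ m ≤ Real.exp (-(64 / N)) ^ m := pow_le_pow_left₀ hρ0 h1 m
    refine h2.trans ?_
    rw [← Real.exp_nat_mul, Real.exp_le_exp]
    have h3 : (N : ℝ) / 8 ≤ m := by
      have h4 : N ≤ 8 * m := by omega
      have h5 : (N : ℝ) ≤ 8 * m := by exact_mod_cast h4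
      linarith
    have h4 : (N : ℝ) / 8 * (64 / N) ≤ m * (64 / N) := mul_le_mul_of_nonneg_right h3 (by positivity)
    have h5 : (N : ℝ) / 8 * (64 / N) = 8 := by field_simp; norm_num
    linarith
  have hfin := heart ha ρ hρ0 hρ1 M (18 * N) (1200 * (1 / 10 ^ 18 * N) + C2 * √N) (√(N / 1200))
    (Real.exp (-8)) 100000 (by norm_num) (by omega) hR2 hV2 (Real.sqrt_nonneg _) hau (by
      rw [hA2]; push_cast; linarith) hτ
  rw [hA2] at hfin
  have hex := exp_small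
  have h1 : 4 * Real.exp (-8) ^ 2 * (18 * (N : ℝ)) ≤ 4 * (1 / 10 ^ 6) * (18 * N) :=
    mul_le_mul_of_nonneg_right (by linarith) (by positivity)
  have h2 : 2 * (((100000 : ℕ) : ℝ) * (1 - ρ)) ^ 2 * (18 * N) ≤ 147456 * 10 ^ 10 * √N := by
    have e1 : 1 - ρ = 64 / N := by rw [hρ]; ring
    rw [e1]
    have e2 : 2 * (((100000 : ℕ) : ℝ) * (64 / N)) ^ 2 * (18 * N) = 147456 * 10 ^ 10 * (1 / N) := by
      push_cast
      field_simp
      norm_num
    rw [e2]
    apply mul_le_mul_of_nonneg_left _ (by positivity)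
    calc 1 / (N : ℝ) ≤ 1 := by
          rw [div_le_one hNpos]; linarith
      _ ≤ _ := hsq1
  have h3 : (((100000 : ℕ) : ℝ)) ^ 3 ≤ 10 ^ 15 * √N := by
    push_cast
    nlinarith
  have h4 : (N : ℝ) / 10 ^ 4 ≤ A * √N := by
    push_cast at hfin h2 h3
    have e : A * √N = 10 ^ 15 * √N + 2 * 10 ^ 10 * (C2 * √N) + 147456 * 10 ^ 10 * √N := by
      rw [hA]; ring
    rw [e]
    linarith
  have h5 : √(N : ℝ) ≤ 10 ^ 4 * A := by
    have h6 : √(N : ℝ) * √N ≤ (10 ^ 4 * A) * √N := by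
      rw [hsq]; linarith
    exact le_of_mul_le_mul_right h6 (by linarith)
  have h6 : (N : ℝ) ≤ (10 ^ 4 * A) ^ 2 := by
    rw [← hsq, sq]
    exact mul_le_mul h5 h5 (Real.sqrt_nonneg _) (by positivity)
  have h7 : (n1 : ℝ) ≤ N := by exact_mod_cast (by omega : n1 ≤ N)
  linarith

end

end Pool.Agent.H90.Rep
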