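import Pool.Agent.H90.Rep.Abs
import Pool.Graph.R_seed8.H820R3.DG.Quad

/-!
# The binary digits of quadratic integers
-/

set_option autoImplicit false
set_option linter.unusedSectionVars false

open Finset

namespace Pool.Agent.H90.Rep

open Pool.Agent.R474

/-- the binary digits -/
noncomputable def bd (ξ : ℝ) (k : ℕ) : ℤ := ⌊ξ * 2 ^ k⌋ % 2

lemma bd_zero_or_one (ξ : ℝ) (k : ℕ) : bd ξ k = 0 ∨ bd ξ k = 1 := by
  unfold bd; omega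

/-- the indicator of the ones after the point -/
noncomputable def on (ξ : ℝ) (k : ℕ) : ℕ := if k = 0 then 0 else (bd ξ k).toNat

lemma on_le (ξ : ℝ) (k : ℕ) : on ξ k ≤ 1 := by
  unfold on
  split_ifs
  · omega
  · rcases bd_zero_or_one ξ k with h | h <;> rw [h] <;> norm_num

lemma floor_succ (ξ : ℝ) (R : ℕ) : ⌊ξ * 2 ^ (R + 1)⌋ = 2 * ⌊ξ * 2 ^ R⌋ + bd ξ (R + 1) := by
  have h1 : ⌊ξ * 2 ^ (R + 1)⌋ / 2 = ⌊ξ * 2 ^ R⌋ := by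
    have h2 := Int.floor_div_natCast (ξ * 2 ^ (R + 1)) 2
    have h3 : ξ * 2 ^ (R + 1) / ((2 : ℕ) : ℝ) = ξ * 2 ^ R := by
      rw [pow_succ]
      push_cast
      ring
    rw [h3] at h2
    rw [h2]
    rfl
  unfold bd
  omega

lemma V_on (ξ : ℝ) (R : ℕ) : (V (on ξ) R : ℤ) = ⌊ξ * 2 ^ R⌋ - 2 ^ R * ⌊ξ⌋ := by
  induction R with
  | zero => simp [V, on]
  | succ R ih =>
    rw [V, floor_succ]
    push_cast
    rw [ih]
    have h1 : ((on ξ (R + 1) : ℕ) : ℤ) = bd ξ (R + 1) := by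
      unfold on
      rw [if_neg (by omega)]
      apply Int.toNat_of_nonneg
      rcases bd_zero_or_one ξ (R + 1) with h | h <;> rw [h]
      norm_num
    rw [h1, pow_succ]
    ring

lemma fract_pos {ξ : ℝ} (hirr : Irrational ξ) (R : ℕ) : 0 < Int.fract (ξ * 2 ^ R) := by
  apply lt_of_le_of_ne (Int.fract_nonneg _)
  intro h
  have h1 : Irrational (ξ * ((2 ^ R : ℕ) : ℝ)) := hirr.mul_natCast (by positivity)
  push_cast at h1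
  have h2 : ξ * 2 ^ R = (⌊ξ * 2 ^ R⌋ : ℤ) := by
    have := Int.floor_add_fract (ξ * 2 ^ R)
    rw [← h, add_zero] at this
    exact this.symm
  rw [h2] at h1
  exact h1 ⟨(⌊ξ * 2 ^ R⌋ : ℤ), by push_cast; rfl⟩

lemma sub_V (ξ : ℝ) (R : ℕ) : 2 ^ R * (ξ - ⌊ξ⌋) - V (on ξ) R = Int.fract (ξ * 2 ^ R) := by
  have h1 : ((V (on ξ) R : ℕ) : ℝ) = (⌊ξ * 2 ^ R⌋ : ℝ) - 2 ^ R * ⌊ξ⌋ := by
    have h2 := congrArg (fun z : ℤ => (z : ℝ)) (V_on ξ R)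
    push_cast at h2
    exact h2
  rw [h1, Int.fract]
  ring

lemma exp_on {ξ : ℝ} (hirr : Irrational ξ) : Exp (on ξ) (ξ - ⌊ξ⌋) where
  le_one := on_le ξ
  pos := by
    intro R
    have h1 := sub_V ξ R
    have h2 := fract_pos hirr R
    linarith
  lt := by
    intro R
    have h1 := sub_V ξ R
    have h2 := Int.fract_lt_one (ξ * 2 ^ R)
    linarith

/-- the carries -/
noncomputable def car (ξ : ℝ) (β γ : ℤ) (R : ℕ) : ℤ := -γ * 2 ^ R - P (on ξ) R - β * V (on ξ) R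

lemma car_succ (ξ : ℝ) (β γ : ℤ) (R : ℕ) :
    car ξ β γ (R + 1) = 2 * car ξ β γ R - rep (on ξ) (R + 1) - β * on ξ (R + 1) := by
  unfold car
  rw [P, V, pow_succ]
  push_cast
  ring

lemma car_eq {ξ : ℝ} {β γ : ℤ} (hq : (ξ - ⌊ξ⌋) ^ 2 + β * (ξ - ⌊ξ⌋) + γ = 0) (R : ℕ) :
    (car ξ β γ R : ℝ) = T (on ξ) (ξ - ⌊ξ⌋) R + β * Int.fract (ξ * 2 ^ R) := by
  rw [← sub_V ξ R]
  unfold car T
  push_cast
  linear_combination (-(2 : ℝ) ^ R) * hq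

lemma car_low {ξ : ℝ} (hirr : Irrational ξ) {β γ : ℤ}
    (hq : (ξ - ⌊ξ⌋) ^ 2 + β * (ξ - ⌊ξ⌋) + γ = 0) (R : ℕ) : -|β| ≤ car ξ β γ R := by
  have h1 := car_eq hq R
  have h2 := T_pos (exp_on hirr) R
  have h3 := fract_pos hirr R
  have h4 := Int.fract_lt_one (ξ * 2 ^ R)
  have h5 : -|(β : ℝ)| ≤ β * Int.fract (ξ * 2 ^ R) := by
    have h6 : -|(β : ℝ)| * Int.fract (ξ * 2 ^ R) ≤ β * Int.fract (ξ * 2 ^ R) :=
      mul_le_mul_of_nonneg_right (neg_abs_le _) h3.le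
    have h7 : |(β : ℝ)| * Int.fract (ξ * 2 ^ R) ≤ |(β : ℝ)| * 1 :=
      mul_le_mul_of_nonneg_left h4.le (abs_nonneg _)
    linarith
  have h6 : -|(β : ℝ)| ≤ (car ξ β γ R : ℝ) := by linarith
  have h7 : ((-|β| : ℤ) : ℝ) ≤ (car ξ β γ R : ℝ) := by push_cast; exact h6
  exact_mod_cast h7

lemma car_up {ξ : ℝ} (hirr : Irrational ξ) {β γ : ℤ}
    (hq : (ξ - ⌊ξ⌋) ^ 2 + β * (ξ - ⌊ξ⌋) + γ = 0) (R : ℕ) : car ξ β γ R ≤ R + |β| + 4 := by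
  have h1 := car_eq hq R
  have h2 := T_le (exp_on hirr) R
  have h3 := fract_pos hirr R
  have h4 := Int.fract_lt_one (ξ * 2 ^ R)
  have h5 : β * Int.fract (ξ * 2 ^ R) ≤ |(β : ℝ)| := by
    have h6 : β * Int.fract (ξ * 2 ^ R) ≤ |(β : ℝ)| * Int.fract (ξ * 2 ^ R) :=
      mul_le_mul_of_nonneg_right (le_abs_self _) h3.le
    have h7 : |(β : ℝ)| * Int.fract (ξ * 2 ^ R) ≤ |(β : ℝ)| * 1 :=
      mul_le_mul_of_nonneg_left h4.le (abs_nonneg _)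
    linarith
  have h7 : (car ξ β γ R : ℝ) ≤ ((R + |β| + 4 : ℤ) : ℝ) := by push_cast; linarith
  exact_mod_cast h7

lemma K_on {ξ : ℝ} (hirr : Irrational ξ) {B C : ℤ} (hq : ξ ^ 2 + B * ξ + C = 0) :
    ∃ n0 : ℕ, ∀ n, n0 ≤ n → (n : ℝ) ≤ (K (on ξ) n : ℝ) ^ 2 := by
  obtain ⟨n0, hn0⟩ := Pool.Agent.H820R3.DG.quad_real (b := 2) le_rfl (A := 1) (B := B) (C := C)
    one_pos hirr (by push_cast; linarith) (2 / 5) (by norm_num)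
  refine ⟨n0, fun n hn => ?_⟩
  have h1 := hn0 n hn
  have h2 : (7 : ℝ) / 5 ≤ 7 * Real.sqrt ((((2 : ℕ) : ℝ) - 1) * (Int.gcd ((2 : ℕ) : ℤ) (2 * 1) : ℕ) /
      (48 * ((1 : ℤ) : ℝ))) := by
    have e : Int.gcd ((2 : ℕ) : ℤ) (2 * 1) = 2 := by decide
    rw [e]
    have h3 : (1 : ℝ) / 5 ≤ Real.sqrt ((((2 : ℕ) : ℝ) - 1) * ((2 : ℕ) : ℝ) / (48 * ((1 : ℤ) : ℝ))) := by
      apply Real.le_sqrt_of_sq_le
      norm_num
    linarith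
  have h3 : Real.sqrt n ≤ (K (on ξ) n : ℝ) := by
    have h4 : (1 : ℝ) * Real.sqrt n ≤ (7 * Real.sqrt ((((2 : ℕ) : ℝ) - 1) *
        (Int.gcd ((2 : ℕ) : ℤ) (2 * 1) : ℕ) / (48 * ((1 : ℤ) : ℝ))) - 2 / 5) * Real.sqrt n :=
      mul_le_mul_of_nonneg_right (by linarith) (Real.sqrt_nonneg _)
    have h5 : ((∑ k ∈ range n, ⌊ξ * ((2 : ℕ) : ℝ) ^ (k + 1)⌋ % ((2 : ℕ) : ℤ) : ℤ) : ℝ) = K (on ξ) n := by
      unfold K
      rw [sum_range_succ']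
      have e0 : on ξ 0 = 0 := by unfold on; simp
      rw [e0, add_zero]
      push_cast
      refine sum_congr rfl fun k _ => ?_
      unfold on bd
      rw [if_neg (by omega)]
      have h6 : (⌊ξ * 2 ^ (k + 1)⌋ % 2).toNat = ⌊ξ * 2 ^ (k + 1)⌋ % 2 :=
        Int.toNat_of_nonneg (by omega)
      have h7 := congrArg (fun z : ℤ => (z : ℝ)) h6
      push_cast at h7
      rw [h7]
    rw [h5] at h1
    linarith
  have h4 := pow_le_pow_left₀ (Real.sqrt_nonneg _) h3 2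
  rwa [Real.sq_sqrt (Nat.cast_nonneg _)] at h4

/-- the energy of the ones -/
theorem energy_on {ξ : ℝ} (hirr : Irrational ξ) {B C : ℤ} (hq : ξ ^ 2 + B * ξ + C = 0) :
    ∃ η : ℝ, 0 < η ∧ ∃ N0 : ℕ, ∀ N : ℕ, N0 ≤ N → η * N ≤ E2 (on ξ) N := by
  set β : ℤ := B + 2 * ⌊ξ⌋ with hβ
  set γ : ℤ := ⌊ξ⌋ ^ 2 + B * ⌊ξ⌋ + C with hγ
  have hq' : (ξ - ⌊ξ⌋) ^ 2 + β * (ξ - ⌊ξ⌋) + γ = 0 := by
    rw [hβ, hγ]
    push_cast
    linear_combination hq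
  exact abstract_main (on_le ξ) (car_succ ξ β γ) (le_refl |β|) (car_low hirr hq') (car_up hirr hq')
    (K_on hirr hq)

lemma bd_neg {ξ : ℝ} (hirr : Irrational ξ) (k : ℕ) : bd (-ξ) k = 1 - bd ξ k := by
  have h1 := fract_pos hirr k
  have h2 := Int.fract_lt_one (ξ * 2 ^ k)
  have h3 : ⌊-ξ * 2 ^ k⌋ = -⌊ξ * 2 ^ k⌋ - 1 := by
    rw [Int.floor_eq_iff]
    have h4 := Int.floor_add_fract (ξ * 2 ^ k)
    push_cast
    constructor <;> linarith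
  unfold bd
  rw [h3]
  omega

end Pool.Agent.H90.Rep
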