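import Pool.Graph.R_seed8.R474.Conv

/-!
# The carries: an integer sequence which doubles up to the number of representations
-/

set_option autoImplicit false
set_option linter.unusedSectionVars false

open Finset

namespace Pool.Agent.H90.Rep

open Pool.Agent.R474

/-- parity of the number of the representations of an odd number -/
lemma rep_odd (a : ℕ → ℕ) (h : ℕ) :
    rep a (2 * h + 1) = 2 * ∑ i ∈ range (h + 1), a i * a (2 * h + 1 - i) := by
  unfold rep
  have e : 2 * h + 1 + 1 = (h + 1) + (h + 1) := by ring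
  rw [e, sum_range_add]
  have h4 : ∑ i ∈ range (h + 1), a (h + 1 + i) * a (2 * h + 1 - (h + 1 + i)) =
      ∑ i ∈ range (h + 1), a i * a (2 * h + 1 - i) := by
    have hrf := sum_range_reflect
      (fun i : ℕ => (a (h + 1 + i) * a (2 * h + 1 - (h + 1 + i)) : ℕ)) (h + 1)
    rw [← hrf]
    refine sum_congr rfl fun i hi => ?_
    rw [mem_range] at hi
    have h1 : h + 1 + (h + 1 - 1 - i) = 2 * h + 1 - i := by omega
    have h2 : 2 * h + 1 - (2 * h + 1 - i) = i := by omega
    rw [h1, h2, mul_comm]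
  rw [h4]
  ring

lemma rep_even (a : ℕ → ℕ) (h : ℕ) :
    rep a (2 * h) = 2 * ∑ i ∈ range h, a i * a (2 * h - i) + a h * a h := by
  unfold rep
  have e : 2 * h + 1 = (h + 1) + h := by ring
  rw [e, sum_range_add, sum_range_succ]
  have h3 : 2 * h - h = h := by omega
  have h4 : ∑ i ∈ range h, a (h + 1 + i) * a (2 * h - (h + 1 + i)) =
      ∑ i ∈ range h, a i * a (2 * h - i) := by
    have hrf := sum_range_reflect (fun i : ℕ => (a (h + 1 + i) * a (2 * h - (h + 1 + i)) : ℕ)) h
    rw [← hrf]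
    refine sum_congr rfl fun i hi => ?_
    rw [mem_range] at hi
    have h1 : h + 1 + (h - 1 - i) = 2 * h - i := by omega
    have h2 : 2 * h - (2 * h - i) = i := by omega
    rw [h1, h2, mul_comm]
  rw [h4, h3]
  ring

lemma tele (g : ℕ → ℤ) (M : ℕ) : ∑ m ∈ range M, g (m + 1) + g 0 = ∑ m ∈ range M, g m + g M := by
  rw [← sum_range_succ', sum_range_succ]

/-- the excess over four -/
def exc (c : ℕ → ℤ) (m : ℕ) : ℤ := max (c m - 4) 0
/-- the negative part -/
def neg (c : ℕ → ℤ) (m : ℕ) : ℤ := max (-c m) 0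
/-- indicator of values at least four -/
def big (c : ℕ → ℤ) (m : ℕ) : ℤ := if 4 ≤ c m then 1 else 0
/-- indicator of nonpositive values -/
def low (c : ℕ → ℤ) (m : ℕ) : ℤ := if c m ≤ 0 then 1 else 0
/-- the rest, nonzero at odd values only -/
def odd (c : ℕ → ℤ) (m : ℕ) : ℤ := c m - (2 + 2 * big c m - 2 * low c m + exc c m - neg c m)

lemma odd_sq (c : ℕ → ℤ) (m : ℕ) : odd c m ^ 2 ≤ c m % 2 := by
  unfold odd big low exc neg
  have h0 : c m % 2 = 0 ∨ c m % 2 = 1 := by omega
  rcases le_or_gt 4 (c m) with h | h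
  · rw [if_pos h, if_neg (by omega), max_eq_left (by omega), max_eq_right (by omega)]
    have e : c m - (2 + 2 * 1 - 2 * 0 + (c m - 4) - 0) = 0 := by ring
    rw [e]
    omega
  · rcases le_or_gt (c m) 0 with h' | h'
    · rw [if_neg (by omega), if_pos h', max_eq_right (by omega), max_eq_left (by omega)]
      have e : c m - (2 + 2 * 0 - 2 * 1 + 0 - -c m) = 0 := by ring
      rw [e]
      omega
    · rw [if_neg (by omega), if_neg (by omega), max_eq_right (by omega), max_eq_right (by omega)]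
      have h1 : c m = 1 ∨ c m = 2 ∨ c m = 3 := by omega
      rcases h1 with h1 | h1 | h1 <;> rw [h1] <;> norm_num

section
variable {a : ℕ → ℕ} (ha : ∀ k, a k ≤ 1) {c : ℕ → ℤ} {β L : ℤ}
  (hc : ∀ m, c (m + 1) = 2 * c m - rep a (m + 1) - β * a (m + 1))
  (hβ : |β| ≤ L) (hlow : ∀ m, -L ≤ c m)

/-- the number of ones up to `M` -/
def K (a : ℕ → ℕ) (M : ℕ) : ℕ := ∑ k ∈ range (M + 1), a k

/-- the part of the energy on the numbers with at least five ordered representations -/
def E2 (a : ℕ → ℕ) (M : ℕ) : ℕ := ∑ m ∈ (range (M + 1)).filter (fun m => 5 ≤ rep a m), rep a m ^ 2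

lemma sum_a_le (M : ℕ) : ∑ m ∈ range M, (a (m + 1) : ℤ) ≤ K a M := by
  unfold K
  rw [sum_range_succ']
  push_cast
  have : (0 : ℤ) ≤ a 0 := Int.natCast_nonneg _
  linarith

lemma E2_ge (M : ℕ) : ∑ m ∈ range M, (if 5 ≤ rep a (m + 1) then (rep a (m + 1) : ℤ) ^ 2 else 0) ≤
    E2 a M := by
  unfold E2
  rw [sum_filter, sum_range_succ']
  push_cast
  have h1 : (0 : ℤ) ≤ if 5 ≤ rep a 0 then (rep a 0 : ℤ) ^ 2 else 0 := by
    split_ifs
    · positivity
    · exact le_rfl
  linarith

include ha hc in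
/-- the excess -/
lemma exc_step (m : ℕ) : 4 * exc c m ^ 2 ≤ 2 * exc c (m + 1) ^ 2 +
    4 * (if 5 ≤ rep a (m + 1) then (rep a (m + 1) : ℤ) ^ 2 else 0) + 4 * β ^ 2 * a (m + 1) := by
  have h1 := hc m
  set r : ℤ := (rep a (m + 1) : ℤ) with hr
  have hr0 : 0 ≤ r := Int.natCast_nonneg _
  set w : ℤ := if 5 ≤ rep a (m + 1) then r else 0 with hw
  have hw2 : (if 5 ≤ rep a (m + 1) then r ^ 2 else 0) = w ^ 2 := by
    rw [hw]
    split_ifs
    · rfl
    · norm_num
  rw [hw2]
  have hrw : r - 4 ≤ w := by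
    rw [hw]
    split_ifs with h
    · omega
    · omega
  have hw0 : 0 ≤ w := by
    rw [hw]; split_ifs
    · exact hr0
    · exact le_rfl
  have ha1 : (a (m + 1) : ℤ) = 0 ∨ (a (m + 1) : ℤ) = 1 := by
    have := ha (m + 1)
    omega
  have hexc0 : 0 ≤ exc c m := le_max_right _ _
  have hexc1 : 0 ≤ exc c (m + 1) := le_max_right _ _
  have hexc2 : c (m + 1) - 4 ≤ exc c (m + 1) := le_max_left _ _
  have hβ0 : 0 ≤ |β| := abs_nonneg β
  have key : 2 * exc c m ≤ exc c (m + 1) + w + |β| * a (m + 1) := by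
    rcases le_or_gt (c m) 4 with h | h
    · have : exc c m = 0 := max_eq_right (by omega)
      rw [this]
      have : 0 ≤ |β| * (a (m + 1) : ℤ) := mul_nonneg hβ0 (Int.natCast_nonneg _)
      linarith
    · have h2 : exc c m = c m - 4 := max_eq_left (by omega)
      rw [h2]
      have h3 : β * (a (m + 1) : ℤ) ≤ |β| * (a (m + 1) : ℤ) :=
        mul_le_mul_of_nonneg_right (le_abs_self β) (Int.natCast_nonneg _)
      linarith
  have hb : (|β| * (a (m + 1) : ℤ)) ^ 2 = β ^ 2 * a (m + 1) := by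
    rw [mul_pow, sq_abs]
    rcases ha1 with h | h <;> rw [h] <;> norm_num
  have h5 : (2 * exc c m) ^ 2 ≤ (exc c (m + 1) + w + |β| * a (m + 1)) ^ 2 :=
    pow_le_pow_left₀ (by linarith) key 2
  nlinarith [sq_nonneg (exc c (m + 1) - (w + |β| * (a (m + 1) : ℤ))),
    sq_nonneg (w - |β| * (a (m + 1) : ℤ))]

include ha hc in
lemma exc_sum (M : ℕ) : ∑ m ∈ range (M + 1), exc c m ^ 2 ≤
    2 * exc c M ^ 2 + 2 * E2 a M + 2 * β ^ 2 * K a M := by
  have h1 : ∑ m ∈ range M, 4 * exc c m ^ 2 ≤ ∑ m ∈ range M, (2 * exc c (m + 1) ^ 2 +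
      4 * (if 5 ≤ rep a (m + 1) then (rep a (m + 1) : ℤ) ^ 2 else 0) + 4 * β ^ 2 * a (m + 1)) :=
    sum_le_sum fun m _ => exc_step ha hc m
  rw [← mul_sum, sum_add_distrib, sum_add_distrib, ← mul_sum, ← mul_sum, ← mul_sum] at h1
  have h2 := sum_a_le (a := a) M
  have h3 := E2_ge (a := a) M
  have h4 : ∑ m ∈ range M, exc c (m + 1) ^ 2 + exc c 0 ^ 2 = ∑ m ∈ range M, exc c m ^ 2 + exc c M ^ 2 :=
    tele (fun m => exc c m ^ 2) M
  have h5 : 0 ≤ exc c 0 ^ 2 := sq_nonneg _
  have h6 : 4 * β ^ 2 * ∑ m ∈ range M, (a (m + 1) : ℤ) ≤ 4 * β ^ 2 * K a M :=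
    mul_le_mul_of_nonneg_left h2 (by positivity)
  rw [sum_range_succ]
  linarith

include ha hc in
lemma neg_step (m : ℕ) : 4 * neg c m ^ 2 ≤ 2 * neg c (m + 1) ^ 2 + 2 * β ^ 2 * a (m + 1) := by
  have h1 := hc m
  have hr0 : (0 : ℤ) ≤ (rep a (m + 1) : ℤ) := Int.natCast_nonneg _
  have ha1 : (a (m + 1) : ℤ) = 0 ∨ (a (m + 1) : ℤ) = 1 := by
    have := ha (m + 1)
    omega
  have hβ0 : 0 ≤ |β| := abs_nonneg β
  have hn0 : 0 ≤ neg c m := le_max_right _ _
  have hn1 : 0 ≤ neg c (m + 1) := le_max_right _ _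
  have hn2 : -c (m + 1) ≤ neg c (m + 1) := le_max_left _ _
  have key : 2 * neg c m ≤ neg c (m + 1) + |β| * a (m + 1) := by
    rcases le_or_gt 0 (c m) with h | h
    · have : neg c m = 0 := max_eq_right (by omega)
      rw [this]
      have : 0 ≤ |β| * (a (m + 1) : ℤ) := mul_nonneg hβ0 (Int.natCast_nonneg _)
      linarith
    · have h2 : neg c m = -c m := max_eq_left (by omega)
      rw [h2]
      have h3 : -|β| * (a (m + 1) : ℤ) ≤ β * (a (m + 1) : ℤ) :=
        mul_le_mul_of_nonneg_right (neg_abs_le β) (Int.natCast_nonneg _)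
      linarith
  have hb : (|β| * (a (m + 1) : ℤ)) ^ 2 = β ^ 2 * a (m + 1) := by
    rw [mul_pow, sq_abs]
    rcases ha1 with h | h <;> rw [h] <;> norm_num
  have h5 : (2 * neg c m) ^ 2 ≤ (neg c (m + 1) + |β| * a (m + 1)) ^ 2 :=
    pow_le_pow_left₀ (by linarith) key 2
  nlinarith [sq_nonneg (neg c (m + 1) - |β| * (a (m + 1) : ℤ))]

include ha hc hβ hlow in
lemma neg_sum (M : ℕ) : ∑ m ∈ range (M + 1), neg c m ^ 2 ≤ 2 * L ^ 2 + β ^ 2 * K a M := by
  have h1 : ∑ m ∈ range M, 4 * neg c m ^ 2 ≤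
      ∑ m ∈ range M, (2 * neg c (m + 1) ^ 2 + 2 * β ^ 2 * a (m + 1)) :=
    sum_le_sum fun m _ => neg_step ha hc m
  rw [← mul_sum, sum_add_distrib, ← mul_sum, ← mul_sum] at h1
  have h2 := sum_a_le (a := a) M
  have h4 : ∑ m ∈ range M, neg c (m + 1) ^ 2 + neg c 0 ^ 2 = ∑ m ∈ range M, neg c m ^ 2 + neg c M ^ 2 :=
    tele (fun m => neg c m ^ 2) M
  have h5 : 0 ≤ neg c 0 ^ 2 := sq_nonneg _
  have h6 : 2 * β ^ 2 * ∑ m ∈ range M, (a (m + 1) : ℤ) ≤ 2 * β ^ 2 * K a M :=
    mul_le_mul_of_nonneg_left h2 (by positivity)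
  have hL : 0 ≤ L := (abs_nonneg β).trans hβ
  have h7 : neg c M ^ 2 ≤ L ^ 2 := by
    apply pow_le_pow_left₀ (le_max_right _ _)
    apply max_le _ hL
    have := hlow M
    linarith
  rw [sum_range_succ]
  linarith

include ha hc in
lemma odd_sum (M : ℕ) : ∑ m ∈ range (M + 1), odd c m ^ 2 ≤ 2 * K a M + 1 := by
  have h1 : ∀ m ∈ range M, odd c (m + 1) ^ 2 ≤ a (m + 1) +
      (if (m + 1) % 2 = 0 then (a ((m + 1) / 2) : ℤ) else 0) := by
    intro m _
    refine (odd_sq c (m + 1)).trans ?_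
    have h2 := hc m
    have ha1 := ha (m + 1)
    rcases Nat.eq_zero_or_pos (a (m + 1)) with h0 | h0
    · rw [h0] at h2 ⊢
      rcases Nat.even_or_odd' (m + 1) with ⟨h, h3 | h3⟩
      · have e1 : (m + 1) % 2 = 0 := by omega
        have e2 : (m + 1) / 2 = h := by omega
        rw [if_pos e1, e2]
        have h4 := rep_even a h
        rw [← h3] at h4
        have h5 := ha h
        have h6 : a h = 0 ∨ a h = 1 := by omega
        rcases h6 with h6 | h6
        · rw [h6] at h4 ⊢
          omega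
        · rw [h6]
          omega
      · have e1 : ¬ (m + 1) % 2 = 0 := by omega
        rw [if_neg e1]
        have h4 := rep_odd a h
        rw [← h3] at h4
        omega
    · have e : a (m + 1) = 1 := by omega
      rw [e]
      have : (0 : ℤ) ≤ if (m + 1) % 2 = 0 then (a ((m + 1) / 2) : ℤ) else 0 := by
        split_ifs
        · exact Int.natCast_nonneg _
        · exact le_rfl
      omega
  have h2 := sum_le_sum h1
  rw [sum_add_distrib] at h2
  have h3 := sum_a_le (a := a) M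
  have h4 : ∑ m ∈ range M, (if (m + 1) % 2 = 0 then (a ((m + 1) / 2) : ℤ) else 0) ≤ K a M := by
    rw [← sum_filter]
    unfold K
    push_cast
    have h5 : ∑ m ∈ (range M).filter (fun m => (m + 1) % 2 = 0), (a ((m + 1) / 2) : ℤ) =
        ∑ k ∈ ((range M).filter (fun m => (m + 1) % 2 = 0)).image (fun m => (m + 1) / 2), (a k : ℤ) := by
      rw [sum_image]
      intro x hx y hy hxy
      simp only [coe_filter, mem_range, Set.mem_ofPred_eq] at hx hy
      simp only at hxy
      omega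
    rw [h5]
    apply sum_le_sum_of_subset_of_nonneg
    · intro k hk
      rw [mem_image] at hk
      obtain ⟨m, hm, rfl⟩ := hk
      rw [mem_filter, mem_range] at hm
      rw [mem_range]
      omega
    · intro k _ _
      exact Int.natCast_nonneg _
  have h6 : odd c 0 ^ 2 ≤ 1 := by
    refine (odd_sq c 0).trans ?_
    omega
  rw [sum_range_succ']
  linarith

/-- changes of a sequence of zeros and ones -/
lemma changes_le (u : ℕ → ℤ) (hu : ∀ m, u m = 0 ∨ u m = 1) (M : ℕ) (D : ℤ)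
    (hD : ∑ m ∈ range M, (if u m = 1 ∧ u (m + 1) = 0 then (1 : ℤ) else 0) ≤ D) :
    ∑ m ∈ range M, (u (m + 1) - u m) ^ 2 ≤ 2 * D + 1 := by
  have h1 : ∀ m, (u (m + 1) - u m) ^ 2 = (u (m + 1) - u m) +
      2 * (if u m = 1 ∧ u (m + 1) = 0 then (1 : ℤ) else 0) := by
    intro m
    rcases hu m with h | h <;> rcases hu (m + 1) with h' | h' <;> rw [h, h'] <;> norm_num
  simp only [h1]
  rw [sum_add_distrib, ← mul_sum, sum_range_sub]
  have h2 : u M ≤ 1 := by rcases hu M with h | h <;> rw [h]; norm_num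
  have h3 : 0 ≤ u 0 := by rcases hu 0 with h | h <;> rw [h]; norm_num
  linarith

include ha hc in
lemma big_sum (M : ℕ) : ∑ m ∈ range M, (big c (m + 1) - big c m) ^ 2 ≤ 2 * (E2 a M + K a M) + 1 := by
  apply changes_le (big c)
  · intro m
    unfold big
    split_ifs
    · right; rfl
    · left; rfl
  · have h1 : ∀ m ∈ range M, (if big c m = 1 ∧ big c (m + 1) = 0 then (1 : ℤ) else 0) ≤
        (if 5 ≤ rep a (m + 1) then (rep a (m + 1) : ℤ) ^ 2 else 0) + a (m + 1) := by
      intro m _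
      have h2 := hc m
      have ha1 := ha (m + 1)
      have hr0 : (0 : ℤ) ≤ if 5 ≤ rep a (m + 1) then (rep a (m + 1) : ℤ) ^ 2 else 0 := by
        split_ifs
        · positivity
        · exact le_rfl
      split_ifs with h h' h'
      · have : (1 : ℤ) ≤ (rep a (m + 1) : ℤ) ^ 2 := by
          have : (5 : ℤ) ≤ rep a (m + 1) := by exact_mod_cast h'
          nlinarith
        have : (0 : ℤ) ≤ a (m + 1) := Int.natCast_nonneg _
        linarith
      · obtain ⟨h3, h4⟩ := h
        have h5 : 4 ≤ c m := by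
          by_contra hcon
          unfold big at h3
          rw [if_neg hcon] at h3
          norm_num at h3
        have h6 : ¬ 4 ≤ c (m + 1) := by
          intro hcon
          unfold big at h4
          rw [if_pos hcon] at h4
          norm_num at h4
        have h7 : a (m + 1) ≠ 0 := by
          intro h0
          rw [h0] at h2
          push_cast at h2
          omega
        have h8 : a (m + 1) = 1 := by omega
        rw [h8]
        norm_num
      · have h9 : (0 : ℤ) ≤ a (m + 1) := Int.natCast_nonneg _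
        have : (0 : ℤ) ≤ (rep a (m + 1) : ℤ) ^ 2 := by positivity
        linarith
      · have h9 : (0 : ℤ) ≤ a (m + 1) := Int.natCast_nonneg _
        linarith
    have h2 := sum_le_sum h1
    rw [sum_add_distrib] at h2
    have h3 := sum_a_le (a := a) M
    have h4 := E2_ge (a := a) M
    linarith

include ha hc in
lemma low_sum (M : ℕ) : ∑ m ∈ range M, (low c (m + 1) - low c m) ^ 2 ≤ 2 * (K a M) + 1 := by
  apply changes_le (low c)
  · intro m
    unfold low
    split_ifs
    · right; rfl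
    · left; rfl
  · have h1 : ∀ m ∈ range M, (if low c m = 1 ∧ low c (m + 1) = 0 then (1 : ℤ) else 0) ≤ a (m + 1) := by
      intro m _
      have h2 := hc m
      have ha1 := ha (m + 1)
      split_ifs with h
      · obtain ⟨h3, h4⟩ := h
        have h5 : c m ≤ 0 := by
          by_contra hcon
          unfold low at h3
          rw [if_neg hcon] at h3
          norm_num at h3
        have h6 : ¬ c (m + 1) ≤ 0 := by
          intro hcon
          unfold low at h4
          rw [if_pos hcon] at h4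
          norm_num at h4
        have h7 : a (m + 1) ≠ 0 := by
          intro h0
          rw [h0] at h2
          push_cast at h2
          omega
        have h8 : a (m + 1) = 1 := by omega
        rw [h8]
        norm_num
      · exact Int.natCast_nonneg _
    have h2 := sum_le_sum h1
    have h3 := sum_a_le (a := a) M
    linarith

lemma shift_sq (f : ℕ → ℤ) (M : ℕ) : ∑ m ∈ range M, (f (m + 1) - f m) ^ 2 ≤
    4 * ∑ m ∈ range (M + 1), f m ^ 2 := by
  have h1 : ∀ m ∈ range M, (f (m + 1) - f m) ^ 2 ≤ 2 * f (m + 1) ^ 2 + 2 * f m ^ 2 := by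
    intro m _
    nlinarith [sq_nonneg (f (m + 1) + f m)]
  have h2 := sum_le_sum h1
  rw [sum_add_distrib, ← mul_sum, ← mul_sum] at h2
  have h3 : ∑ m ∈ range M, f (m + 1) ^ 2 + f 0 ^ 2 = ∑ m ∈ range (M + 1), f m ^ 2 :=
    (sum_range_succ' (fun m => f m ^ 2) M).symm
  have h4 : ∑ m ∈ range M, f m ^ 2 + f M ^ 2 = ∑ m ∈ range (M + 1), f m ^ 2 := by
    rw [sum_range_succ]
  have h5 : 0 ≤ f 0 ^ 2 := sq_nonneg _
  have h6 : 0 ≤ f M ^ 2 := sq_nonneg _
  linarith

include ha hc hβ hlow in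
/-- the variation of the carries -/
theorem c_var (M : ℕ) : ∑ m ∈ range M, (c (m + 1) - c m) ^ 2 ≤
    40 * exc c M ^ 2 + 80 * E2 a M + (200 + 80 * β ^ 2) * K a M + 40 * L ^ 2 + 100 := by
  have h1 : ∀ m ∈ range M, (c (m + 1) - c m) ^ 2 ≤ 5 * (4 * (big c (m + 1) - big c m) ^ 2 +
      4 * (low c (m + 1) - low c m) ^ 2 + (exc c (m + 1) - exc c m) ^ 2 +
      (neg c (m + 1) - neg c m) ^ 2 + (odd c (m + 1) - odd c m) ^ 2) := by
    intro m _
    have e : c (m + 1) - c m = 2 * (big c (m + 1) - big c m) - 2 * (low c (m + 1) - low c m) +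
        (exc c (m + 1) - exc c m) - (neg c (m + 1) - neg c m) + (odd c (m + 1) - odd c m) := by
      unfold odd; ring
    rw [e]
    set p := big c (m + 1) - big c m
    set q := low c (m + 1) - low c m
    set r := exc c (m + 1) - exc c m
    set s := neg c (m + 1) - neg c m
    set t := odd c (m + 1) - odd c m
    nlinarith [sq_nonneg (2 * p + 2 * q), sq_nonneg (2 * p - r), sq_nonneg (2 * p + s),
      sq_nonneg (2 * p - t), sq_nonneg (2 * q + r), sq_nonneg (2 * q - s), sq_nonneg (2 * q + t),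
      sq_nonneg (r + s), sq_nonneg (r - t), sq_nonneg (s + t)]
  have h2 := sum_le_sum h1
  rw [← mul_sum, sum_add_distrib, sum_add_distrib, sum_add_distrib, sum_add_distrib, ← mul_sum,
    ← mul_sum] at h2
  have h3 := big_sum ha hc M
  have h4 := low_sum ha hc M
  have h5 := shift_sq (exc c) M
  have h6 := exc_sum ha hc M
  have h7 := shift_sq (neg c) M
  have h8 := neg_sum ha hc hβ hlow M
  have h9 := shift_sq (odd c) M
  have h10 := odd_sum ha hc M
  have h11 : (0 : ℤ) ≤ K a M := Int.natCast_nonneg _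
  have h12 : (0 : ℤ) ≤ E2 a M := Int.natCast_nonneg _
  have h13 : 0 ≤ β ^ 2 * (K a M : ℤ) := by positivity
  linarith

end

end Pool.Agent.H90.Rep
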