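import Pool.Agent.H90.Rep.Main

/-!
# The final step
-/

set_option autoImplicit false
set_option linter.unusedSectionVars false

open Finset

namespace Pool.Agent.H90.Rep

open Pool.Agent.R474

section
variable {a : ℕ → ℕ} (ha : ∀ k, a k ≤ 1) {c : ℕ → ℤ} {β L : ℤ}
  (hc : ∀ m, c (m + 1) = 2 * c m - rep a (m + 1) - β * a (m + 1))
  (hβ : |β| ≤ L) (hlow : ∀ m, -L ≤ c m) (hup : ∀ m : ℕ, c m ≤ m + L + 4)

include hc in
lemma sum_c (n : ℕ) : ∑ m ∈ range n, c m = c n - c 0 + ∑ m ∈ range n, (rep a (m + 1) : ℤ) +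
    β * ∑ m ∈ range n, (a (m + 1) : ℤ) := by
  induction n with
  | zero => simp
  | succ n ih =>
    rw [sum_range_succ, ih, sum_range_succ, sum_range_succ, hc n]
    ring

include ha hc hβ hlow hup in
/-- a place in `[n, 2 n)` with a small carry -/
lemma exists_small (n N : ℕ) (hn : 1 ≤ n) (hN : 2 * n ≤ N) (hN2 : N ≤ 4 * n + 4)
    (hE : E2 a N ≤ N) : ∃ M, n ≤ M ∧ M < 2 * n ∧ c M ≤ 60 + 10 * L := by
  by_contra hcon
  push Not at hcon
  have hL : 0 ≤ L := (abs_nonneg β).trans hβ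
  have h1 := sum_c hc (2 * n)
  have h2 : ∑ m ∈ range (2 * n), (rep a (m + 1) : ℤ) ≤ 4 * (N + 1) + N := by
    have h3 := sum_rep_one a N
    have h4 : ∑ m ∈ range (2 * n), rep a (m + 1) ≤ ∑ m ∈ range (N + 1), rep a m := by
      rw [sum_range_succ']
      calc ∑ m ∈ range (2 * n), rep a (m + 1) ≤ ∑ m ∈ range N, rep a (m + 1) :=
            sum_le_sum_of_subset_of_nonneg (range_mono hN) fun _ _ _ => Nat.zero_le _
        _ ≤ _ := Nat.le_add_right _ _
    have h5 : ∑ m ∈ range (2 * n), rep a (m + 1) ≤ 4 * (N + 1) + N := by omega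
    exact_mod_cast h5
  have h3 : ∑ m ∈ range (2 * n), (a (m + 1) : ℤ) ≤ 2 * n := by
    calc ∑ m ∈ range (2 * n), (a (m + 1) : ℤ) ≤ ∑ m ∈ range (2 * n), (1 : ℤ) :=
          sum_le_sum fun m _ => by exact_mod_cast ha (m + 1)
      _ = 2 * n := by simp
  have h3' : 0 ≤ ∑ m ∈ range (2 * n), (a (m + 1) : ℤ) := sum_nonneg fun _ _ => Int.natCast_nonneg _
  have h4 : β * ∑ m ∈ range (2 * n), (a (m + 1) : ℤ) ≤ L * (2 * n) := by
    calc β * ∑ m ∈ range (2 * n), (a (m + 1) : ℤ) ≤ L * ∑ m ∈ range (2 * n), (a (m + 1) : ℤ) :=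
          mul_le_mul_of_nonneg_right ((le_abs_self β).trans hβ) h3'
      _ ≤ _ := mul_le_mul_of_nonneg_left h3 hL
  have h5 := hup (2 * n)
  have h6 := hlow 0
  have h7 : (60 + 10 * L) * n - L * n ≤ ∑ m ∈ range (2 * n), c m := by
    have e : 2 * n = n + n := by ring
    rw [e, sum_range_add]
    have h8 : -L * n ≤ ∑ m ∈ range n, c m := by
      calc -L * n = ∑ _m ∈ range n, (-L) := by rw [sum_const, card_range, nsmul_eq_mul]; ring
        _ ≤ _ := sum_le_sum fun m _ => hlow m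
    have h9 : (60 + 10 * L) * n ≤ ∑ m ∈ range n, c (n + m) := by
      calc (60 + 10 * L) * n = ∑ _m ∈ range n, (60 + 10 * L) := by
            rw [sum_const, card_range, nsmul_eq_mul]; ring
        _ ≤ _ := sum_le_sum fun m hm => by
          rw [mem_range] at hm
          exact (hcon (n + m) (by omega) (by omega)).le
    linarith
  push_cast at h5
  have hnn : (1 : ℤ) ≤ n := by exact_mod_cast hn
  have hN3 : (N : ℤ) ≤ 4 * n + 4 := by exact_mod_cast hN2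
  have hLn : L ≤ L * n := by nlinarith
  nlinarith

end

/-- the weighted sequence -/
noncomputable def wt (a : ℕ → ℕ) (ρ : ℝ) (M k : ℕ) : ℝ := if k ≤ M then (a k : ℝ) * ρ ^ k else 0

lemma wt_far (a : ℕ → ℕ) (ρ : ℝ) (M k : ℕ) (h : M < k) : wt a ρ M k = 0 := by
  unfold wt
  rw [if_neg (by omega)]

lemma wt_nonneg (a : ℕ → ℕ) {ρ : ℝ} (hρ : 0 ≤ ρ) (M k : ℕ) : 0 ≤ wt a ρ M k := by
  unfold wt
  split_ifs
  · positivity
  · exact le_rfl

lemma rs_nonneg (a : ℕ → ℕ) {ρ : ℝ} (hρ : 0 ≤ ρ) (M m : ℕ) : 0 ≤ rs (wt a ρ M) m :=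
  sum_nonneg fun _ _ => mul_nonneg (wt_nonneg a hρ M _) (wt_nonneg a hρ M _)

lemma rs_le (a : ℕ → ℕ) {ρ : ℝ} (hρ : 0 ≤ ρ) (M m : ℕ) :
    rs (wt a ρ M) m ≤ ρ ^ m * rep a m := by
  unfold rs rep
  push_cast
  rw [mul_sum]
  refine sum_le_sum fun i hi => ?_
  rw [mem_range] at hi
  have h1 : ∀ k, wt a ρ M k ≤ (a k : ℝ) * ρ ^ k := by
    intro k
    unfold wt
    split_ifs
    · exact le_rfl
    · positivity
  calc wt a ρ M i * wt a ρ M (m - i) ≤ ((a i : ℝ) * ρ ^ i) * ((a (m - i) : ℝ) * ρ ^ (m - i)) :=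
        mul_le_mul (h1 _) (h1 _) (wt_nonneg a hρ M _) (by positivity)
    _ = ρ ^ (i + (m - i)) * ((a i : ℝ) * a (m - i)) := by rw [pow_add]; ring
    _ = _ := by rw [show i + (m - i) = m by omega]

lemma rs_eq (a : ℕ → ℕ) {ρ : ℝ} (M m : ℕ) (hm : m ≤ M) :
    rs (wt a ρ M) m = ρ ^ m * rep a m := by
  unfold rs rep
  push_cast
  rw [mul_sum]
  refine sum_congr rfl fun i hi => ?_
  rw [mem_range] at hi
  have h1 : ∀ k, k ≤ m → wt a ρ M k = (a k : ℝ) * ρ ^ k := by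
    intro k hk
    unfold wt
    rw [if_pos (by omega)]
  rw [h1 i (by omega), h1 (m - i) (by omega)]
  calc ((a i : ℝ) * ρ ^ i) * ((a (m - i) : ℝ) * ρ ^ (m - i)) =
        ρ ^ (i + (m - i)) * ((a i : ℝ) * a (m - i)) := by rw [pow_add]; ring
    _ = _ := by rw [show i + (m - i) = m by omega]

/-- the analytic heart: if the number of representations varies little, the ones are few -/
theorem heart {a : ℕ → ℕ} (ha : ∀ k, a k ≤ 1) (ρ : ℝ) (hρ0 : 0 ≤ ρ) (hρ1 : ρ ≤ 1) (M : ℕ)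
    (R2 V2 A0 τ : ℝ) (H : ℕ) (hH : 1 ≤ H) (hHM : H ≤ M)
    (hR2 : ∑ m ∈ range (2 * M + 1), (rep a m : ℝ) ^ 2 ≤ R2)
    (hV2 : ∑ m ∈ range M, ((rep a (m + 1) : ℝ) - rep a m) ^ 2 ≤ V2)
    (hA0 : 0 ≤ A0) (hA : A0 ≤ au (wt a ρ M) M 0)
    (hHA : 4 * R2 < H * A0 ^ 2) (hτ : ∀ m, M + 1 - H ≤ m → ρ ^ m ≤ τ) :
    A0 ^ 2 / 2 ≤ (H : ℝ) ^ 3 + 2 * H ^ 2 * V2 + 2 * (H * (1 - ρ)) ^ 2 * R2 + 4 * τ ^ 2 * R2 := by
  set f := wt a ρ M with hf
  have hfar : ∀ k, M < k → f k = 0 := fun k hk => wt_far a ρ M k hk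
  have hrs0 : ∀ m, 0 ≤ rs f m := fun m => rs_nonneg a hρ0 M m
  have hrs1 : ∀ m, rs f m ≤ rep a m := by
    intro m
    refine (rs_le a hρ0 M m).trans ?_
    calc ρ ^ m * (rep a m : ℝ) ≤ 1 * rep a m :=
          mul_le_mul_of_nonneg_right (pow_le_one₀ hρ0 hρ1) (Nat.cast_nonneg _)
      _ = rep a m := one_mul _
  have hR20 : 0 ≤ R2 := le_trans (sum_nonneg fun _ _ => sq_nonneg _) hR2
  have hen : ∑ m ∈ range (2 * M + 1), rs f m ^ 2 ≤ R2 := by
    refine le_trans (sum_le_sum fun m _ => ?_) hR2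
    exact pow_le_pow_left₀ (hrs0 m) (hrs1 m) 2
  -- a shift with a small autocorrelation
  obtain ⟨h, hh1, hhH, hh⟩ : ∃ h, 1 ≤ h ∧ h ≤ H ∧ au f M h ≤ au f M 0 / 2 := by
    by_contra hcon
    push Not at hcon
    have h1 := (energy_nat hfar H).trans hen
    rw [sum_range_succ'] at h1
    have h2 : ∑ h ∈ range H, A0 ^ 2 / 4 ≤ ∑ h ∈ range H, au f M (h + 1) ^ 2 := by
      refine sum_le_sum fun h hh => ?_
      rw [mem_range] at hh
      have h3 := hcon (h + 1) (by omega) (by omega)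
      have h4 : A0 / 2 ≤ au f M (h + 1) := by linarith
      have h5 := pow_le_pow_left₀ (by linarith : 0 ≤ A0 / 2) h4 2
      calc A0 ^ 2 / 4 = (A0 / 2) ^ 2 := by ring
        _ ≤ _ := h5
    rw [sum_const, card_range, nsmul_eq_mul] at h2
    have h3 : 0 ≤ au f M 0 ^ 2 := sq_nonneg _
    linarith
  have hmain := diff_nat hfar h hh1
  have hleft : A0 ^ 2 / 2 ≤ 2 * (au f M 0 - au f M h) ^ 2 := by
    have h1 : A0 / 2 ≤ au f M 0 - au f M h := by linarith
    have h2 := pow_le_pow_left₀ (by linarith : 0 ≤ A0 / 2) h1 2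
    calc A0 ^ 2 / 2 = 2 * (A0 / 2) ^ 2 := by ring
      _ ≤ _ := by linarith
  have hHR : (1 : ℝ) ≤ H := by exact_mod_cast hH
  have hhR : (h : ℝ) ≤ H := by exact_mod_cast hhH
  have hh0 : (0 : ℝ) ≤ h := Nat.cast_nonneg _
  -- the first terms
  have hu : ∑ u ∈ range h, rs f u ^ 2 ≤ (H : ℝ) ^ 3 := by
    calc ∑ u ∈ range h, rs f u ^ 2 ≤ ∑ u ∈ range h, (H : ℝ) ^ 2 := by
          refine sum_le_sum fun u hu => ?_
          rw [mem_range] at hu
          apply pow_le_pow_left₀ (hrs0 u)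
          refine (hrs1 u).trans ?_
          have h1 : rep a u ≤ u + 1 := rep_le a ha u
          have h2 : rep a u ≤ H := by omega
          exact_mod_cast h2
      _ = h * (H : ℝ) ^ 2 := by rw [sum_const, card_range, nsmul_eq_mul]
      _ ≤ H * (H : ℝ) ^ 2 := mul_le_mul_of_nonneg_right hhR (by positivity)
      _ = _ := by ring
  -- splitting
  have e : 2 * M + 1 = (M + 1 - h) + (M + h) := by omega
  have hsplit : ∑ v ∈ range (2 * M + 1), (rs f (v + h) - rs f v) ^ 2 =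
      ∑ v ∈ range (M + 1 - h), (rs f (v + h) - rs f v) ^ 2 +
        ∑ v ∈ range (M + h), (rs f (M + 1 - h + v + h) - rs f (M + 1 - h + v)) ^ 2 := by
    rw [e, sum_range_add]
  have hpow : 0 ≤ 1 - ρ ^ h ∧ 1 - ρ ^ h ≤ H * (1 - ρ) := by
    constructor
    · have := pow_le_one₀ hρ0 hρ1 (n := h)
      linarith
    · have h1 : 1 + (h : ℝ) * (ρ - 1) ≤ (1 + (ρ - 1)) ^ h :=
        one_add_mul_le_pow (by linarith) h
      rw [add_sub_cancel] at h1
      have h2 : (h : ℝ) * (1 - ρ) ≤ H * (1 - ρ) := mul_le_mul_of_nonneg_right hhR (by linarith)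
      linarith
  have hA1 : ∑ v ∈ range (M + 1 - h), (rs f (v + h) - rs f v) ^ 2 ≤
      2 * H ^ 2 * V2 + 2 * (H * (1 - ρ)) ^ 2 * R2 := by
    have h1 : ∀ v ∈ range (M + 1 - h), (rs f (v + h) - rs f v) ^ 2 ≤
        2 * ((rep a (v + h) : ℝ) - rep a v) ^ 2 + 2 * (H * (1 - ρ)) ^ 2 * (rep a v : ℝ) ^ 2 := by
      intro v hv
      rw [mem_range] at hv
      rw [hf, rs_eq a M (v + h) (by omega), rs_eq a M v (by omega)]
      have e1 : ρ ^ (v + h) * (rep a (v + h) : ℝ) - ρ ^ v * rep a v =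
          ρ ^ (v + h) * ((rep a (v + h) : ℝ) - rep a v) - ρ ^ v * ((1 - ρ ^ h) * rep a v) := by
        rw [pow_add]; ring
      rw [e1]
      set p := (rep a (v + h) : ℝ) - rep a v
      set q := (1 - ρ ^ h) * (rep a v : ℝ)
      have hp1 : ρ ^ (v + h) ≤ 1 := pow_le_one₀ hρ0 hρ1
      have hp0 : 0 ≤ ρ ^ (v + h) := by positivity
      have hq1 : ρ ^ v ≤ 1 := pow_le_one₀ hρ0 hρ1
      have hq0 : 0 ≤ ρ ^ v := by positivity
      have h2 : (ρ ^ (v + h) * p - ρ ^ v * q) ^ 2 ≤ 2 * (ρ ^ (v + h) * p) ^ 2 + 2 * (ρ ^ v * q) ^ 2 := by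
        nlinarith [sq_nonneg (ρ ^ (v + h) * p + ρ ^ v * q)]
      have h3 : (ρ ^ (v + h) * p) ^ 2 ≤ p ^ 2 := by
        rw [mul_pow]
        calc (ρ ^ (v + h)) ^ 2 * p ^ 2 ≤ 1 * p ^ 2 :=
              mul_le_mul_of_nonneg_right (pow_le_one₀ hp0 hp1) (sq_nonneg _)
          _ = _ := one_mul _
      have h4 : (ρ ^ v * q) ^ 2 ≤ (H * (1 - ρ)) ^ 2 * (rep a v : ℝ) ^ 2 := by
        rw [mul_pow]
        calc (ρ ^ v) ^ 2 * q ^ 2 ≤ 1 * q ^ 2 :=
              mul_le_mul_of_nonneg_right (pow_le_one₀ hq0 hq1) (sq_nonneg _)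
          _ = (1 - ρ ^ h) ^ 2 * (rep a v : ℝ) ^ 2 := by ring
          _ ≤ _ := mul_le_mul_of_nonneg_right (pow_le_pow_left₀ hpow.1 hpow.2 2) (sq_nonneg _)
      linarith
    have h2 := sum_le_sum h1
    rw [sum_add_distrib, ← mul_sum, ← mul_sum] at h2
    have h3 := h_var (fun m => (rep a m : ℝ)) M h (by omega)
    have h4 : ∑ m ∈ range (M + 1 - h), (rep a m : ℝ) ^ 2 ≤ R2 := by
      refine le_trans (sum_le_sum_of_subset_of_nonneg (range_mono (by omega)) fun _ _ _ =>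
        sq_nonneg _) hR2
    have h5 : (h : ℝ) ^ 2 * ∑ m ∈ range M, ((rep a (m + 1) : ℝ) - rep a m) ^ 2 ≤ (H : ℝ) ^ 2 * V2 :=
      mul_le_mul (pow_le_pow_left₀ hh0 hhR 2) hV2 (sum_nonneg fun _ _ => sq_nonneg _) (by positivity)
    have h6 : 2 * (H * (1 - ρ)) ^ 2 * ∑ m ∈ range (M + 1 - h), (rep a m : ℝ) ^ 2 ≤
        2 * (H * (1 - ρ)) ^ 2 * R2 := mul_le_mul_of_nonneg_left h4 (by positivity)
    linarith
  have hA2 : ∑ v ∈ range (M + h), (rs f (M + 1 - h + v + h) - rs f (M + 1 - h + v)) ^ 2 ≤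
      4 * τ ^ 2 * R2 := by
    have hle : ∀ m, M + 1 - h ≤ m → rs f m ^ 2 ≤ τ ^ 2 * (rep a m : ℝ) ^ 2 := by
      intro m hm
      rw [← mul_pow]
      apply pow_le_pow_left₀ (hrs0 m)
      refine (rs_le a hρ0 M m).trans ?_
      exact mul_le_mul_of_nonneg_right (hτ m (by omega)) (Nat.cast_nonneg _)
    have h1 : ∀ v ∈ range (M + h), (rs f (M + 1 - h + v + h) - rs f (M + 1 - h + v)) ^ 2 ≤
        2 * rs f (M + 1 - h + v + h) ^ 2 + 2 * rs f (M + 1 - h + v) ^ 2 := by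
      intro v _
      nlinarith [sq_nonneg (rs f (M + 1 - h + v + h) + rs f (M + 1 - h + v))]
    have h2 := sum_le_sum h1
    rw [sum_add_distrib, ← mul_sum, ← mul_sum] at h2
    have hfin : ∀ s : ℕ, M + 1 - h ≤ s → ∑ v ∈ range (M + h), rs f (s + v) ^ 2 ≤ τ ^ 2 * R2 := by
      intro s hs
      have e1 : ∑ v ∈ range (M + h), rs f (s + v) ^ 2 =
          ∑ m ∈ (range (M + h)).image (fun v => s + v), rs f m ^ 2 := by
        rw [sum_image]
        intro x _ y _ hxy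
        simp only at hxy
        omega
      have e2 : ∑ m ∈ (range (M + h)).image (fun v => s + v), rs f m ^ 2 ≤
          ∑ m ∈ (range (2 * M + 1)).filter (fun m => M + 1 - h ≤ m), rs f m ^ 2 := by
        rw [← sum_filter_add_sum_filter_not ((range (M + h)).image (fun v => s + v))
          (fun m => m < 2 * M + 1)]
        have z : ∑ m ∈ ((range (M + h)).image (fun v => s + v)).filter (fun m => ¬ m < 2 * M + 1),
            rs f m ^ 2 = 0 := by
          refine sum_eq_zero fun m hm => ?_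
          rw [mem_filter] at hm
          rw [rs_far hfar m (by omega)]
          ring
        rw [z, add_zero]
        apply sum_le_sum_of_subset_of_nonneg
        · intro m hm
          rw [mem_filter, mem_image] at hm
          obtain ⟨⟨v, hv, rfl⟩, hm2⟩ := hm
          rw [mem_filter, mem_range]
          exact ⟨hm2, by omega⟩
        · intro m _ _
          exact sq_nonneg _
      rw [e1]
      refine e2.trans ?_
      calc ∑ m ∈ (range (2 * M + 1)).filter (fun m => M + 1 - h ≤ m), rs f m ^ 2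
          ≤ ∑ m ∈ (range (2 * M + 1)).filter (fun m => M + 1 - h ≤ m), τ ^ 2 * (rep a m : ℝ) ^ 2 := by
            refine sum_le_sum fun m hm => ?_
            rw [mem_filter] at hm
            exact hle m hm.2
        _ ≤ ∑ m ∈ range (2 * M + 1), τ ^ 2 * (rep a m : ℝ) ^ 2 :=
            sum_le_sum_of_subset_of_nonneg (filter_subset _ _) fun _ _ _ => by positivity
        _ = τ ^ 2 * ∑ m ∈ range (2 * M + 1), (rep a m : ℝ) ^ 2 := by rw [mul_sum]
        _ ≤ _ := mul_le_mul_of_nonneg_left hR2 (sq_nonneg _)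
    have h3 := hfin (M + 1 - h) le_rfl
    have h4 := hfin (M + 1 - h + h) (by omega)
    have h5 : ∑ v ∈ range (M + h), rs f (M + 1 - h + v + h) ^ 2 =
        ∑ v ∈ range (M + h), rs f (M + 1 - h + h + v) ^ 2 := by
      refine sum_congr rfl fun v _ => ?_
      rw [show M + 1 - h + v + h = M + 1 - h + h + v by ring]
    rw [h5] at h2
    linarith
  rw [hsplit] at hmain
  linarith

end Pool.Agent.H90.Rep
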