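import Mathlib

/-!
# Representation functions and autocorrelations on a finite abelian group
-/

set_option autoImplicit false
set_option linter.unusedSectionVars false

open Finset

namespace Pool.Agent.H90.Rep

section
variable {G : Type*} [AddCommGroup G] [Fintype G] [DecidableEq G]

/-- weighted number of representations -/
def conv (X : G → ℝ) (m : G) : ℝ := ∑ a, X a * X (m - a)

/-- autocorrelation -/
def cor (X : G → ℝ) (e : G) : ℝ := ∑ a, X a * X (a + e)

lemma cor_neg (X : G → ℝ) (e : G) : cor X (-e) = cor X e := by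
  unfold cor
  rw [← Equiv.sum_comp (Equiv.addRight e)]
  refine sum_congr rfl fun a _ => ?_
  simp only [Equiv.coe_addRight]
  rw [add_neg_cancel_right, mul_comm]

lemma conv_cor (X : G → ℝ) (h : G) :
    ∑ m, conv X m * conv X (m + h) = ∑ e, cor X e * cor X (e + h) := by
  have h1 : ∀ m, conv X m * conv X (m + h) =
      ∑ a, ∑ b, X a * X (m - a) * (X b * X (m + h - b)) := by
    intro m
    unfold conv
    rw [sum_mul_sum]
  have h2 : ∀ e, cor X e * cor X (e + h) =
      ∑ a, ∑ b, X a * X (a + e) * (X b * X (b + (e + h))) := by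
    intro e
    unfold cor
    rw [sum_mul_sum]
  simp only [h1, h2]
  rw [sum_comm]
  have h3 : ∀ a, ∑ m, ∑ b, X a * X (m - a) * (X b * X (m + h - b)) =
      ∑ b, ∑ e, X b * X (b + e) * (X a * X (a + (e + h))) := by
    intro a
    rw [sum_comm]
    refine sum_congr rfl fun b _ => ?_
    rw [← Equiv.sum_comp (Equiv.addRight (a + b))]
    refine sum_congr rfl fun e _ => ?_
    simp only [Equiv.coe_addRight]
    have e1 : e + (a + b) - a = b + e := by abel
    have e2 : e + (a + b) + h - b = a + (e + h) := by abel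
    rw [e1, e2]
    ring
  simp only [h3]
  have h4 : ∀ a, ∑ b, ∑ e, X b * X (b + e) * (X a * X (a + (e + h))) =
      ∑ e, ∑ b, X b * X (b + e) * (X a * X (a + (e + h))) := fun a => sum_comm
  simp only [h4]
  rw [sum_comm]
  refine sum_congr rfl fun e _ => ?_
  rw [sum_comm]

lemma conv_sq (X : G → ℝ) : ∑ m, conv X m ^ 2 = ∑ e, cor X e ^ 2 := by
  have := conv_cor X 0
  simp only [add_zero] at this
  simp only [sq]
  exact this

lemma diff_sq (X : G → ℝ) (h : G) :
    ∑ m, (conv X (m + h) - conv X m) ^ 2 = ∑ e, (cor X (e + h) - cor X e) ^ 2 := by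
  have h1 : ∀ f : G → ℝ, ∑ m, (f (m + h) - f m) ^ 2 = 2 * ∑ m, f m ^ 2 - 2 * ∑ m, f m * f (m + h) := by
    intro f
    have h2 : ∑ m, f (m + h) ^ 2 = ∑ m, f m ^ 2 := by
      rw [← Equiv.sum_comp (Equiv.addRight h) (fun m => f m ^ 2)]
      rfl
    have h3 : ∀ m, (f (m + h) - f m) ^ 2 = f (m + h) ^ 2 + f m ^ 2 - 2 * (f m * f (m + h)) := by
      intro m; ring
    simp only [h3]
    rw [sum_sub_distrib, sum_add_distrib, h2, ← mul_sum]
    ring
  rw [h1, h1, conv_sq, conv_cor]

/-- the second differences of the number of representations are at least as large as the jump of the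
autocorrelation at zero -/
lemma diff_ge (X : G → ℝ) (h : G) (hh : h ≠ 0) :
    2 * (cor X 0 - cor X h) ^ 2 ≤ ∑ m, (conv X (m + h) - conv X m) ^ 2 := by
  rw [diff_sq]
  have h0 : (0 : G) ≠ -h := by
    intro h1
    exact hh (by rw [← neg_neg h, ← h1, neg_zero])
  have h1 : ∑ e ∈ ({0, -h} : Finset G), (cor X (e + h) - cor X e) ^ 2 ≤
      ∑ e, (cor X (e + h) - cor X e) ^ 2 :=
    sum_le_sum_of_subset_of_nonneg (subset_univ _) fun _ _ _ => sq_nonneg _
  rw [sum_pair h0] at h1
  rw [zero_add, neg_add_cancel, cor_neg] at h1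
  linarith [h1, sq_nonneg (cor X 0 - cor X h), (by ring : (cor X h - cor X 0) ^ 2 = (cor X 0 - cor X h) ^ 2)]

lemma energy_ge (X : G → ℝ) (S : Finset G) : ∑ e ∈ S, cor X e ^ 2 ≤ ∑ m, conv X m ^ 2 := by
  rw [conv_sq]
  exact sum_le_sum_of_subset_of_nonneg (subset_univ _) fun _ _ _ => sq_nonneg _

end

end Pool.Agent.H90.Rep
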