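import Pool.Agent.H90.Rep.Nat
import Pool.Agent.H90.Rep.Dyn

/-!
# The energy on the numbers with at least five ordered representations
-/

set_option autoImplicit false
set_option linter.unusedSectionVars false

open Finset

namespace Pool.Agent.H90.Rep

open Pool.Agent.R474

lemma K_mono (a : ℕ → ℕ) {m n : ℕ} (h : m ≤ n) : K a m ≤ K a n := by
  unfold K
  exact sum_le_sum_of_subset_of_nonneg (range_mono (by omega)) fun _ _ _ => Nat.zero_le _

lemma E2_mono (a : ℕ → ℕ) {m n : ℕ} (h : m ≤ n) : E2 a m ≤ E2 a n := by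
  unfold E2
  exact sum_le_sum_of_subset_of_nonneg (filter_subset_filter _ (range_mono (by omega)))
    fun _ _ _ => Nat.zero_le _

lemma K_sq (a : ℕ → ℕ) (M : ℕ) : K a M ^ 2 ≤ ∑ m ∈ range (2 * M + 1), rep a m := by
  have h2 : ∑ m ∈ range (2 * M + 1), rep a m =
      ∑ i ∈ range (2 * M + 1), ∑ j ∈ range (2 * M + 1 - i), a i * a j := by
    rw [← sum_range_diag_flip (2 * M + 1) (fun i j => a i * a j)]
    refine sum_congr rfl fun k _ => ?_
    unfold rep
    rfl
  rw [h2]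
  unfold K
  rw [sq, sum_mul_sum]
  calc ∑ i ∈ range (M + 1), ∑ j ∈ range (M + 1), a i * a j
      ≤ ∑ i ∈ range (M + 1), ∑ j ∈ range (2 * M + 1 - i), a i * a j := by
        refine sum_le_sum fun i hi => sum_le_sum_of_subset_of_nonneg ?_ fun j _ _ => Nat.zero_le _
        intro j hj
        rw [mem_range] at hi hj ⊢
        omega
    _ ≤ _ := by
        refine sum_le_sum_of_subset_of_nonneg ?_ fun i _ _ => Nat.zero_le _
        intro i hi
        rw [mem_range] at hi ⊢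
        omega

lemma sum_rep_sq (a : ℕ → ℕ) (N : ℕ) : ∑ m ∈ range (N + 1), rep a m ^ 2 ≤ 16 * (N + 1) + E2 a N := by
  unfold E2
  rw [sum_filter]
  have h1 : ∀ m ∈ range (N + 1), rep a m ^ 2 ≤ 16 + (if 5 ≤ rep a m then rep a m ^ 2 else 0) := by
    intro m _
    split_ifs with h
    · omega
    · have : rep a m ≤ 4 := by omega
      calc rep a m ^ 2 ≤ 4 ^ 2 := Nat.pow_le_pow_left this 2
        _ ≤ _ := by norm_num
  have h2 := sum_le_sum h1
  rw [sum_add_distrib, sum_const, card_range, smul_eq_mul] at h2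
  omega

lemma sum_rep_one (a : ℕ → ℕ) (N : ℕ) : ∑ m ∈ range (N + 1), rep a m ≤ 4 * (N + 1) + E2 a N := by
  unfold E2
  rw [sum_filter]
  have h1 : ∀ m ∈ range (N + 1), rep a m ≤ 4 + (if 5 ≤ rep a m then rep a m ^ 2 else 0) := by
    intro m _
    split_ifs with h
    · have : rep a m ≤ rep a m ^ 2 := Nat.le_self_pow (by norm_num) _
      omega
    · omega
  have h2 := sum_le_sum h1
  rw [sum_add_distrib, sum_const, card_range, smul_eq_mul] at h2
  omega

lemma rep_le_succ {a : ℕ → ℕ} (ha : ∀ k, a k ≤ 1) (m : ℕ) : rep a m ≤ m + 1 := rep_le a ha m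

section
variable {a : ℕ → ℕ} (ha : ∀ k, a k ≤ 1) {c : ℕ → ℤ} {β L : ℤ}
  (hc : ∀ m, c (m + 1) = 2 * c m - rep a (m + 1) - β * a (m + 1))
  (hβ : |β| ≤ L) (hlow : ∀ m, -L ≤ c m) (hup : ∀ m : ℕ, c m ≤ m + L + 4)

include ha hc hβ hlow in
/-- the variation of the number of representations -/
theorem r_var (M : ℕ) : ∑ m ∈ range M, ((rep a (m + 1) : ℤ) - rep a m) ^ 2 ≤
    15 * (40 * exc c M ^ 2 + 80 * E2 a M + (200 + 80 * β ^ 2) * K a M + 40 * L ^ 2 + 100) +
      12 * β ^ 2 * K a M + 4 := by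
  rcases Nat.eq_zero_or_pos M with h0 | hM
  · subst h0
    have h11 : (0 : ℤ) ≤ K a 0 := Int.natCast_nonneg _
    have h12 : (0 : ℤ) ≤ E2 a 0 := Int.natCast_nonneg _
    simp only [range_zero, sum_empty]
    positivity
  obtain ⟨M', rfl⟩ : ∃ M', M = M' + 1 := ⟨M - 1, by omega⟩
  rw [sum_range_succ']
  have h0 : ((rep a (0 + 1) : ℤ) - rep a 0) ^ 2 ≤ 4 := by
    have e0 : rep a 0 = a 0 * a 0 := by unfold rep; simp
    have e1 : rep a (0 + 1) = a 0 * a 1 + a 1 * a 0 := by unfold rep; simp [sum_range_succ]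
    have := ha 0
    have := ha 1
    have h3 : a 0 = 0 ∨ a 0 = 1 := by omega
    have h4 : a 1 = 0 ∨ a 1 = 1 := by omega
    rw [e0, e1]
    rcases h3 with h3 | h3 <;> rcases h4 with h4 | h4 <;> rw [h3, h4] <;> norm_num
  have h1 : ∀ m ∈ range M', ((rep a (m + 1 + 1) : ℤ) - rep a (m + 1)) ^ 2 ≤
      3 * (4 * (c (m + 1) - c m) ^ 2 + (c (m + 1 + 1) - c (m + 1)) ^ 2 +
        β ^ 2 * ((a (m + 1 + 1) : ℤ) - a (m + 1)) ^ 2) := by
    intro m _
    have h2 := hc m
    have h3 := hc (m + 1)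
    have e : (rep a (m + 1 + 1) : ℤ) - rep a (m + 1) = 2 * (c (m + 1) - c m) -
        (c (m + 1 + 1) - c (m + 1)) - β * ((a (m + 1 + 1) : ℤ) - a (m + 1)) := by linarith
    rw [e]
    set p := c (m + 1) - c m
    set q := c (m + 1 + 1) - c (m + 1)
    set r := β * ((a (m + 1 + 1) : ℤ) - a (m + 1)) with hr
    have er : β ^ 2 * ((a (m + 1 + 1) : ℤ) - a (m + 1)) ^ 2 = r ^ 2 := by rw [hr]; ring
    rw [er]
    nlinarith [sq_nonneg (2 * p + q), sq_nonneg (2 * p + r), sq_nonneg (q - r)]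
  have h2 := sum_le_sum h1
  rw [← mul_sum, sum_add_distrib, sum_add_distrib, ← mul_sum, ← mul_sum] at h2
  have h3 := c_var ha hc hβ hlow (M' + 1)
  have h4 : ∑ m ∈ range M', (c (m + 1) - c m) ^ 2 ≤ ∑ m ∈ range (M' + 1), (c (m + 1) - c m) ^ 2 := by
    rw [sum_range_succ]
    have := sq_nonneg (c (M' + 1) - c M')
    linarith
  have h5 : ∑ m ∈ range M', (c (m + 1 + 1) - c (m + 1)) ^ 2 ≤
      ∑ m ∈ range (M' + 1), (c (m + 1) - c m) ^ 2 := by
    rw [sum_range_succ']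
    have := sq_nonneg (c (0 + 1) - c 0)
    linarith
  have h6 : ∑ m ∈ range M', ((a (m + 1 + 1) : ℤ) - a (m + 1)) ^ 2 ≤ 4 * K a (M' + 1) := by
    have h7 := shift_sq (fun m => (a m : ℤ)) (M' + 1)
    rw [sum_range_succ'] at h7
    have h8 : 0 ≤ ((a (0 + 1) : ℤ) - a 0) ^ 2 := sq_nonneg _
    have h9 : ∑ m ∈ range (M' + 1 + 1), (a m : ℤ) ^ 2 = K a (M' + 1) := by
      unfold K
      push_cast
      refine sum_congr rfl fun m _ => ?_
      have := ha m
      have h3 : a m = 0 ∨ a m = 1 := by omega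
      rcases h3 with h3 | h3 <;> rw [h3] <;> norm_num
    rw [h9] at h7
    linarith
  have h7 : β ^ 2 * ∑ m ∈ range M', ((a (m + 1 + 1) : ℤ) - a (m + 1)) ^ 2 ≤
      β ^ 2 * (4 * K a (M' + 1)) := mul_le_mul_of_nonneg_left h6 (sq_nonneg _)
  linarith

lemma h_var (g : ℕ → ℝ) (M h : ℕ) (hM : h ≤ M) :
    ∑ m ∈ range (M + 1 - h), (g (m + h) - g m) ^ 2 ≤ (h : ℝ) ^ 2 * ∑ m ∈ range M, (g (m + 1) - g m) ^ 2 := by
  have h1 : ∀ m ∈ range (M + 1 - h), (g (m + h) - g m) ^ 2 ≤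
      h * ∑ i ∈ range h, (g (m + i + 1) - g (m + i)) ^ 2 := by
    intro m _
    have e : g (m + h) - g m = ∑ i ∈ range h, (g (m + i + 1) - g (m + i)) := by
      have := sum_range_sub (fun i => g (m + i)) h
      rw [add_zero] at this
      rw [← this]
      rfl
    rw [e]
    have := sq_sum_le_card_mul_sum_sq (s := range h) (f := fun i => g (m + i + 1) - g (m + i))
    rw [card_range] at this
    exact this
  have h2 := sum_le_sum h1
  rw [← mul_sum, sum_comm] at h2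
  have h3 : ∑ i ∈ range h, ∑ m ∈ range (M + 1 - h), (g (m + i + 1) - g (m + i)) ^ 2 ≤
      ∑ i ∈ range h, ∑ m ∈ range M, (g (m + 1) - g m) ^ 2 := by
    refine sum_le_sum fun i hi => ?_
    rw [mem_range] at hi
    have h4 : ∑ m ∈ range (M + 1 - h), (g (m + i + 1) - g (m + i)) ^ 2 =
        ∑ m ∈ (range (M + 1 - h)).image (fun m => m + i), (g (m + 1) - g m) ^ 2 := by
      rw [sum_image]
      intro x _ y _ hxy
      simp only at hxy
      omega
    rw [h4]
    apply sum_le_sum_of_subset_of_nonneg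
    · intro k hk
      rw [mem_image] at hk
      obtain ⟨m, hm, rfl⟩ := hk
      rw [mem_range] at hm ⊢
      omega
    · intro k _ _
      exact sq_nonneg _
  rw [sum_const, card_range, nsmul_eq_mul] at h3
  calc _ ≤ _ := h2
    _ ≤ (h : ℝ) * (h * ∑ m ∈ range M, (g (m + 1) - g m) ^ 2) :=
      mul_le_mul_of_nonneg_left h3 (Nat.cast_nonneg _)
    _ = _ := by ring

end

end Pool.Agent.H90.Rep
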