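import Pool.Agent.H90.Rep.Group

/-!
# The inequality for sequences indexed by natural numbers
-/

set_option autoImplicit false
set_option linter.unusedSectionVars false

open Finset

namespace Pool.Agent.H90.Rep

/-- weighted number of representations of `m` -/
def rs (f : ℕ → ℝ) (m : ℕ) : ℝ := ∑ i ∈ range (m + 1), f i * f (m - i)

/-- autocorrelation -/
def au (f : ℕ → ℝ) (M h : ℕ) : ℝ := ∑ i ∈ range (M + 1), f i * f (i + h)

section
variable {f : ℕ → ℝ} {M : ℕ} (hf : ∀ k, M < k → f k = 0)

include hf in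
lemma rs_far (m : ℕ) (hm : 2 * M < m) : rs f m = 0 := by
  unfold rs
  refine sum_eq_zero fun i hi => ?_
  rcases lt_or_ge M i with h | h
  · rw [hf i h, zero_mul]
  · rw [hf (m - i) (by omega), mul_zero]

include hf in
lemma conv_eq (n : ℕ) (hn : 2 * M ≤ n) (m : Fin (n + 1)) :
    conv (fun a : Fin (n + 1) => f a.val) m = rs f m.val := by
  unfold conv rs
  have h1 : ∀ a : Fin (n + 1), f a.val * f (m - a).val =
      (fun i : ℕ => f i * f ((n + 1 - i + m.val) % (n + 1))) a.val := by
    intro a
    simp only [Fin.sub_def]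
  simp only [h1]
  rw [Fin.sum_univ_eq_sum_range (fun i : ℕ => f i * f ((n + 1 - i + m.val) % (n + 1))) (n + 1)]
  have hm := m.2
  have h2 : range (m.val + 1) ⊆ range (n + 1) := range_mono (by omega)
  rw [← sum_subset h2]
  · refine sum_congr rfl fun i hi => ?_
    rw [mem_range] at hi
    have e : n + 1 - i + m.val = (m.val - i) + (n + 1) := by omega
    rw [e, Nat.add_mod_right, Nat.mod_eq_of_lt (by omega)]
  · intro i hi hni
    rw [mem_range] at hi hni
    rcases lt_or_ge M i with h | h
    · rw [hf i h, zero_mul]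
    · rw [Nat.mod_eq_of_lt (by omega), hf (n + 1 - i + m.val) (by omega), mul_zero]

include hf in
lemma cor_eq (n h : ℕ) (hn : M + h ≤ n) :
    cor (fun a : Fin (n + 1) => f a.val) (Fin.ofNat (n + 1) h) = au f M h := by
  unfold cor au
  have h1 : ∀ a : Fin (n + 1), f a.val * f (a + Fin.ofNat (n + 1) h).val =
      (fun i : ℕ => f i * f ((i + h) % (n + 1))) a.val := by
    intro a
    simp only [Fin.add_def, Fin.ofNat, Nat.add_mod_mod]
  simp only [h1]
  rw [Fin.sum_univ_eq_sum_range (fun i : ℕ => f i * f ((i + h) % (n + 1))) (n + 1)]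
  have h2 : range (M + 1) ⊆ range (n + 1) := range_mono (by omega)
  rw [← sum_subset h2]
  · refine sum_congr rfl fun i hi => ?_
    rw [mem_range] at hi
    rw [Nat.mod_eq_of_lt (by omega)]
  · intro i hi hni
    rw [mem_range] at hi hni
    rw [hf i (by omega), zero_mul]

include hf in
/-- energy identity as an inequality -/
theorem energy_nat (H : ℕ) : ∑ h ∈ range (H + 1), au f M h ^ 2 ≤ ∑ m ∈ range (2 * M + 1), rs f m ^ 2 := by
  set n := 2 * M + H with hn
  have h1 := energy_ge (fun a : Fin (n + 1) => f a.val)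
    ((range (H + 1)).image (fun h => Fin.ofNat (n + 1) h))
  rw [sum_image] at h1
  · have h2 : ∑ h ∈ range (H + 1), cor (fun a : Fin (n + 1) => f a.val) (Fin.ofNat (n + 1) h) ^ 2 =
        ∑ h ∈ range (H + 1), au f M h ^ 2 := by
      refine sum_congr rfl fun h hh => ?_
      rw [mem_range] at hh
      rw [cor_eq hf n h (by omega)]
    have h3 : ∑ m : Fin (n + 1), conv (fun a : Fin (n + 1) => f a.val) m ^ 2 =
        ∑ m ∈ range (2 * M + 1), rs f m ^ 2 := by
      have h4 : ∀ m : Fin (n + 1), conv (fun a : Fin (n + 1) => f a.val) m ^ 2 =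
          (fun v : ℕ => rs f v ^ 2) m.val := fun m => by
        simp only [conv_eq hf n (by omega) m]
      simp only [h4]
      rw [Fin.sum_univ_eq_sum_range (fun v : ℕ => rs f v ^ 2) (n + 1)]
      symm
      apply sum_subset (range_mono (by omega))
      intro v hv hnv
      rw [mem_range] at hv hnv
      rw [rs_far hf v (by omega)]
      ring
    rw [h2, h3] at h1
    exact h1
  · intro x hx y hy hxy
    simp only [coe_range, Set.mem_Iio] at hx hy
    have := congrArg Fin.val hxy
    simp only [Fin.ofNat] at this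
    rwa [Nat.mod_eq_of_lt (by omega), Nat.mod_eq_of_lt (by omega)] at this

include hf in
/-- the main inequality -/
theorem diff_nat (h : ℕ) (hh : 1 ≤ h) :
    2 * (au f M 0 - au f M h) ^ 2 ≤
      ∑ v ∈ range (2 * M + 1), (rs f (v + h) - rs f v) ^ 2 + ∑ u ∈ range h, rs f u ^ 2 := by
  set n := 2 * M + 2 * h with hn
  have hne : Fin.ofNat (n + 1) h ≠ 0 := by
    intro h1
    have := congrArg Fin.val h1
    simp only [Fin.ofNat] at this
    rw [Nat.mod_eq_of_lt (by omega)] at this
    simp at this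
    omega
  have h1 := diff_ge (fun a : Fin (n + 1) => f a.val) (Fin.ofNat (n + 1) h) hne
  have h0 : (0 : Fin (n + 1)) = Fin.ofNat (n + 1) 0 := by
    apply Fin.ext
    simp [Fin.ofNat]
  rw [h0, cor_eq hf n 0 (by omega), cor_eq hf n h (by omega)] at h1
  refine h1.trans (le_of_eq ?_)
  have h2 : ∀ m : Fin (n + 1), (conv (fun a : Fin (n + 1) => f a.val) (m + Fin.ofNat (n + 1) h) -
      conv (fun a : Fin (n + 1) => f a.val) m) ^ 2 =
      (fun v : ℕ => (rs f ((v + h) % (n + 1)) - rs f v) ^ 2) m.val := by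
    intro m
    rw [conv_eq hf n (by omega), conv_eq hf n (by omega)]
    simp only [Fin.add_def, Fin.ofNat, Nat.add_mod_mod]
  simp only [h2]
  rw [Fin.sum_univ_eq_sum_range (fun v : ℕ => (rs f ((v + h) % (n + 1)) - rs f v) ^ 2) (n + 1)]
  have e : n + 1 = (2 * M + h + 1) + h := by omega
  rw [e, sum_range_add]
  have h5 : ∑ v ∈ range (2 * M + 1), (rs f (v + h) - rs f v) ^ 2 =
      ∑ x ∈ range (2 * M + h + 1), (rs f ((x + h) % (2 * M + h + 1 + h)) - rs f x) ^ 2 := by
    rw [← sum_subset (range_mono (by omega : 2 * M + 1 ≤ 2 * M + h + 1))]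
    · refine sum_congr rfl fun v hv => ?_
      rw [mem_range] at hv
      rw [Nat.mod_eq_of_lt (by omega)]
    · intro v hv hnv
      rw [mem_range] at hv hnv
      rw [Nat.mod_eq_of_lt (by omega), rs_far hf v (by omega), rs_far hf (v + h) (by omega)]
      ring
  have h6 : ∑ u ∈ range h, rs f u ^ 2 = ∑ x ∈ range h,
      (rs f ((2 * M + h + 1 + x + h) % (2 * M + h + 1 + h)) - rs f (2 * M + h + 1 + x)) ^ 2 := by
    refine sum_congr rfl fun u hu => ?_
    rw [mem_range] at hu
    have e2 : 2 * M + h + 1 + u + h = u + (2 * M + h + 1 + h) := by ring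
    rw [e2, Nat.add_mod_right, Nat.mod_eq_of_lt (by omega), rs_far hf (2 * M + h + 1 + u) (by omega),
      sub_zero]
  rw [h5, h6]

end

end Pool.Agent.H90.Rep
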